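import Pool.Agent.ATT.Stmts
import Pool.Agent.Helper70_LQF.UFL

/-!
# GUF: the functional in a run (helper75)
-/

set_option autoImplicit false

open MeasureTheory ProbabilityTheory Function Filter

open scoped ENNReal BigOperators Topology NNReal Matrix

noncomputable section

namespace Pool.Agent.ATT.H75

open Pool.Agent.LE.QF (HJ HM gG LL dC)
open Pool.Agent.KIL (cu)

theorem cu_eq : cu = Pool.Agent.LE.QF.H70.cu := rfl

theorem guf (jal : Pool.Agent.LE.QF.JalStmt) (flw : Pool.Agent.LE.QF.FlwStmt) : GufStmt := by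
  intro ι _ _ T u hT hu
  obtain ⟨F, hF⟩ : ∃ F : ℝ × (ι → ℝ) → ℝ, F = fun r => cu (u r) := ⟨_, rfl⟩
  have hkey : ∀ q : ℝ × (ι → ℝ), 0 ≤ q.1 → q.1 ≤ T → ContDiffAt ℝ 2 F q ∧ 0 ≤ F q ∧ F q ≤ 1 ∧
      LL F q ≤ (fun _ : ℝ => (0 : ℝ)) q.1 * F q + (fun _ : ℝ => (0 : ℝ)) q.1 := by
    intro q h0 h1
    obtain ⟨hu0, hs, hl⟩ := hu q h0 h1
    have hF0 : 0 ≤ F q := by rw [hF, cu_eq]; exact Pool.Agent.LE.QF.H70.cu_nonneg hu0
    have hF1 : F q ≤ 1 := by rw [hF, cu_eq]; exact Pool.Agent.LE.QF.H70.cu_le_one _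
    have h2 : HJ u q (u q) (fun c => dC c u q) (LL u q) := ⟨hs, rfl, fun _ => rfl, rfl⟩
    have h3 := ((jal ι ℝ q).2.2.2.2.1 u (u q) (LL u q) _ h2).2 cu
      Pool.Agent.LE.QF.H70.cu_contDiff.contDiffAt
    have h4 : LL F q = deriv cu (u q) * LL u q +
        deriv (deriv cu) (u q) / 2 * ∑ c, dC c u q ^ 2 := by
      rw [hF]
      exact h3.ge
    have h3' : ContDiffAt ℝ 2 F q := by rw [hF]; exact h3.sm
    refine ⟨h3', hF0, hF1, ?_⟩
    rw [h4, cu_eq, Pool.Agent.LE.QF.H70.cu_deriv2, Pool.Agent.LE.QF.H70.cu_deriv]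
    have h5 : 0 ≤ ∑ c, dC c u q ^ 2 := Finset.sum_nonneg fun c _ => sq_nonneg _
    rcases le_or_gt 1 (u q) with h6 | h6
    · have h7 : max (1 - u q) 0 = 0 := max_eq_right (by linarith)
      simp only [h7]
      have e : (3 : ℝ) * 0 ^ 2 * LL u q + -(6 * 0) / 2 * ∑ c, dC c u q ^ 2 = 0 := by ring
      rw [e]
      simp
    · have h7 : max (1 - u q) 0 = 1 - u q := max_eq_left (by linarith)
      simp only [h7]
      have h8 := hl h6
      have h9 : 3 * (1 - u q) ^ 2 * LL u q ≤ 0 :=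
        mul_nonpos_of_nonneg_of_nonpos (by positivity) h8
      have h10 : 0 ≤ 6 * (1 - u q) / 2 * ∑ c, dC c u q ^ 2 :=
        mul_nonneg (by linarith) h5
      have h11 : -(6 * (1 - u q)) / 2 * ∑ c, dC c u q ^ 2 ≤ 0 := by
        have e : -(6 * (1 - u q)) / 2 * ∑ c, dC c u q ^ 2 =
          -(6 * (1 - u q) / 2 * ∑ c, dC c u q ^ 2) := by ring
        rw [e]
        linarith
      have h12 : (0 : ℝ) * F q + 0 = 0 := by ring
      rw [h12]
      linarith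
  have h1 := flw ι T (fun _ => 0) (fun _ => 0) F hT continuous_const continuous_const
    (fun _ => ⟨le_rfl, le_rfl⟩) hkey
  have h2 : Real.exp (∫ _ in (0 : ℝ)..T, (0 : ℝ)) * (F (0, 0) + ∫ _ in (0 : ℝ)..T, (0 : ℝ)) =
      F (0, 0) := by
    rw [intervalIntegral.integral_zero, Real.exp_zero, one_mul, add_zero]
  rw [h2, hF] at h1
  exact h1

end Pool.Agent.ATT.H75
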