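import Pool.Agent.ATT.Stmts

/-!
# MXJ: the jet of `mx` (helper75)
-/

set_option autoImplicit false

open MeasureTheory ProbabilityTheory Function Filter

open scoped ENNReal BigOperators Topology NNReal Matrix

noncomputable section

namespace Pool.Agent.ATT.H75

open Pool.Agent.LE.QF (HJ HM gG LL dC)
open Pool.Agent.KIL (KJ)

theorem hj_congr {ι E : Type} [Fintype ι] [DecidableEq ι] [NormedAddCommGroup E]
    [NormedSpace ℝ E] {F F' : ℝ × (ι → ℝ) → E} {q : ℝ × (ι → ℝ)} {v v' : E} {g g' : ι → E}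
    {l l' : E} (h : HJ F q v g l) (hF : ∀ r, F r = F' r) (hv : v = v') (hg : ∀ c, g c = g' c)
    (hl : l = l') : HJ F' q v' g' l' := by
  have e : F = F' := funext hF
  subst e
  exact ⟨h.sm, h.vl.trans hv, fun c => (h.gr c).trans (hg c), h.ge.trans hl⟩

theorem mxj_y (jal : Pool.Agent.LE.QF.JalStmt) {ι X : Type} [Fintype ι] [DecidableEq ι]
    [Fintype X] [DecidableEq X] (e : ι → X)
    (q : ℝ × (ι → ℝ)) (Gm : ℝ × (ι → ℝ) → Matrix X X ℂ) (kp : ℝ → X → ℝ) (G Go : Matrix X X ℂ)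
    (κ g : X → ℝ) (μ : ι → ℂ) (x : X) (h : KJ e q Gm kp G κ g μ) (y : X)
    (hy : y ∉ Set.range e) :
    HJ (fun r => kp r.1 y * ‖Gm r x y - Go x y‖ ^ 2) q (κ y * ‖G x y - Go x y‖ ^ 2)
      (fun c => κ y * (-(2 * ((starRingEnd ℂ) (G x y - Go x y) *
        (G x (e c) * G (e c) y)).re)))
      (κ y * (2 * ((starRingEnd ℂ) (G x y - Go x y) * ∑ c, G x (e c) * μ c * G (e c) y).re +
        ∑ c, ‖G x (e c)‖ ^ 2 * ‖G (e c) y‖ ^ 2)) := by
  have hC := jal ι ℂ q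
  have hR := jal ι ℝ q
  have h1 : HJ (fun r => Gm r x y - Go x y) q (G x y - Go x y)
      (fun c => gG G (e c) x y - 0) (∑ c, G x (e c) * μ c * G (e c) y - 0) :=
    (hC.2.2.1 _ _ _ _ _ _ _ _ (h.hG x y) (hC.1 (Go x y))).2.1
  have h2 := (hC.2.2.2.1 _ _ _ _ h1).1
  have h3 := (hC.2.2.1 _ _ _ _ _ _ _ _ h1 h2).2.2
  have h4 := (hC.2.2.2.1 _ _ _ _ h3).2.1
  have h5 := hR.2.2.2.2.2.2.1 (fun t => kp t y) (h.hk y).1
  have h6 := (hR.2.2.1 _ _ _ _ _ _ _ _ h5 h4).2.2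
  have hd : deriv (fun t => kp t y) q.1 = 0 := h.hd0 y hy
  have hns : ∀ z : ℂ, (z * (starRingEnd ℂ) z).re = ‖z‖ ^ 2 := by
    intro z
    rw [Complex.mul_conj, Complex.ofReal_re, Complex.normSq_eq_norm_sq]
  refine hj_congr h6 (fun r => ?_) ?_ (fun c => ?_) ?_
  · show kp r.1 y * ((Gm r x y - Go x y) * (starRingEnd ℂ) (Gm r x y - Go x y)).re = _
    rw [hns]
  · show kp q.1 y * ((G x y - Go x y) * (starRingEnd ℂ) (G x y - Go x y)).re = _
    rw [hns, (h.hk y).2]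
  · show kp q.1 y * ((G x y - Go x y) * (starRingEnd ℂ) (-(G x (e c) * G (e c) y) - 0) +
        (-(G x (e c) * G (e c) y) - 0) * (starRingEnd ℂ) (G x y - Go x y)).re + 0 * _ = _
    rw [(h.hk y).2, zero_mul, add_zero, sub_zero]
    congr 1
    simp only [Complex.add_re, Complex.mul_re, Complex.neg_re, Complex.neg_im, Complex.conj_re,
      Complex.conj_im, Complex.mul_im, map_neg]
    ring
  · show kp q.1 y * ((G x y - Go x y) * (starRingEnd ℂ) (∑ c, G x (e c) * μ c * G (e c) y - 0) +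
        (∑ c, G x (e c) * μ c * G (e c) y - 0) * (starRingEnd ℂ) (G x y - Go x y) +
        ∑ c, (gG G (e c) x y - 0) * (starRingEnd ℂ) (gG G (e c) x y - 0)).re +
        deriv (fun t => kp t y) q.1 * _ + ∑ c : ι, (0 : ℝ) * _ = _
    rw [hd, zero_mul, add_zero, (h.hk y).2]
    have e0 : ∀ w : ι → ℝ, ∑ c : ι, (0 : ℝ) * w c = 0 := fun w =>
      Finset.sum_eq_zero fun c _ => zero_mul _
    rw [e0, add_zero]
    congr 1
    rw [Complex.add_re, Complex.re_sum]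
    congr 1
    · rw [sub_zero, Complex.add_re]
      have e1 : ∀ a b : ℂ, (a * (starRingEnd ℂ) b).re + (b * (starRingEnd ℂ) a).re =
          2 * ((starRingEnd ℂ) a * b).re := by
        intro a b
        simp only [Complex.mul_re, Complex.conj_re, Complex.conj_im]
        ring
      exact e1 _ _
    · refine Finset.sum_congr rfl fun c _ => ?_
      rw [sub_zero, hns]
      show ‖-(G x (e c) * G (e c) y)‖ ^ 2 = _
      rw [norm_neg, norm_mul, mul_pow]

theorem mxj (jal : Pool.Agent.LE.QF.JalStmt) : MxjStmt := by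
  intro ι X _ _ _ _ e q Gm kp G Go κ g μ A₃ x h he
  have h1 : ∀ y ∈ A₃, _ := fun y hy => mxj_y jal e q Gm kp G Go κ g μ x h y (by
    rintro ⟨c, hc⟩
    exact he c (hc ▸ hy))
  have h2 := (jal ι ℝ q).2.2.2.2.2.1 X A₃ _ _ _ _ h1
  refine ⟨_, _, h2, ?_⟩
  intro M gb hκ hM hgb hG
  -- the basic sums
  have hS : ∀ c, (∑ y ∈ A₃, κ y * (‖G x y - Go x y‖ * ‖G (e c) y‖)) ^ 2 ≤ M * gb := by
    intro c
    have h3 := Finset.sum_sq_le_sum_mul_sum_of_sq_eq_mul A₃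
      (r := fun y => κ y * (‖G x y - Go x y‖ * ‖G (e c) y‖))
      (f := fun y => κ y * ‖G x y - Go x y‖ ^ 2) (g := fun y => κ y * ‖G (e c) y‖ ^ 2)
      (fun y hy => mul_nonneg (hκ y hy) (sq_nonneg _))
      (fun y hy => mul_nonneg (hκ y hy) (sq_nonneg _)) (fun y hy => by ring)
    refine h3.trans ?_
    exact mul_le_mul hM (hG c) (Finset.sum_nonneg fun y hy => mul_nonneg (hκ y hy) (sq_nonneg _))
      ((Finset.sum_nonneg fun y hy => mul_nonneg (hκ y hy) (sq_nonneg _)).trans hM)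
  have hS0 : ∀ c, 0 ≤ ∑ y ∈ A₃, κ y * (‖G x y - Go x y‖ * ‖G (e c) y‖) := fun c =>
    Finset.sum_nonneg fun y hy => mul_nonneg (hκ y hy) (by positivity)
  have hS1 : ∀ c, ∑ y ∈ A₃, κ y * (‖G x y - Go x y‖ * ‖G (e c) y‖) ≤ Real.sqrt (M * gb) :=
    fun c => Real.le_sqrt_of_sq_le (hS c)
  constructor
  · -- the generator
    have h4 : ∀ y ∈ A₃, κ y * (2 * ((starRingEnd ℂ) (G x y - Go x y) *
        ∑ c, G x (e c) * μ c * G (e c) y).re + ∑ c, ‖G x (e c)‖ ^ 2 * ‖G (e c) y‖ ^ 2) ≤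
        ∑ c, (2 * ‖μ c‖ * ‖G x (e c)‖ * (κ y * (‖G x y - Go x y‖ * ‖G (e c) y‖)) +
          ‖G x (e c)‖ ^ 2 * (κ y * ‖G (e c) y‖ ^ 2)) := by
      intro y hy
      have h5 : ((starRingEnd ℂ) (G x y - Go x y) * ∑ c, G x (e c) * μ c * G (e c) y).re ≤
          ∑ c, ‖μ c‖ * ‖G x (e c)‖ * (‖G x y - Go x y‖ * ‖G (e c) y‖) := by
        rw [Finset.mul_sum, Complex.re_sum]
        refine Finset.sum_le_sum fun c _ => ?_
        refine (Complex.re_le_norm _).trans (le_of_eq ?_)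
        rw [norm_mul, norm_mul, norm_mul, RCLike.norm_conj]
        ring
      have h6 : κ y * (2 * ((starRingEnd ℂ) (G x y - Go x y) *
          ∑ c, G x (e c) * μ c * G (e c) y).re + ∑ c, ‖G x (e c)‖ ^ 2 * ‖G (e c) y‖ ^ 2) ≤
          κ y * (2 * (∑ c, ‖μ c‖ * ‖G x (e c)‖ * (‖G x y - Go x y‖ * ‖G (e c) y‖)) +
            ∑ c, ‖G x (e c)‖ ^ 2 * ‖G (e c) y‖ ^ 2) :=
        mul_le_mul_of_nonneg_left (by linarith) (hκ y hy)
      refine h6.trans (le_of_eq ?_)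
      rw [Finset.mul_sum, ← Finset.sum_add_distrib, Finset.mul_sum]
      refine Finset.sum_congr rfl fun c _ => ?_
      ring
    refine (Finset.sum_le_sum h4).trans ?_
    rw [Finset.sum_comm]
    refine Finset.sum_le_sum fun c _ => ?_
    rw [Finset.sum_add_distrib, ← Finset.mul_sum, ← Finset.mul_sum]
    refine add_le_add ?_ ?_
    · exact mul_le_mul_of_nonneg_left (hS1 c) (by positivity)
    · exact mul_le_mul_of_nonneg_left (hG c) (by positivity)
  · intro c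
    have h7 : |∑ y ∈ A₃, κ y * (-(2 * ((starRingEnd ℂ) (G x y - Go x y) *
        (G x (e c) * G (e c) y)).re))| ≤
        2 * ‖G x (e c)‖ * ∑ y ∈ A₃, κ y * (‖G x y - Go x y‖ * ‖G (e c) y‖) := by
      refine (Finset.abs_sum_le_sum_abs _ _).trans ?_
      rw [Finset.mul_sum]
      refine Finset.sum_le_sum fun y hy => ?_
      rw [abs_mul, abs_of_nonneg (hκ y hy), abs_neg, abs_mul, abs_two]
      have h8 : |((starRingEnd ℂ) (G x y - Go x y) * (G x (e c) * G (e c) y)).re| ≤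
          ‖G x y - Go x y‖ * (‖G x (e c)‖ * ‖G (e c) y‖) := by
        refine (Complex.abs_re_le_norm _).trans (le_of_eq ?_)
        rw [norm_mul, norm_mul, RCLike.norm_conj]
      calc κ y * (2 * |((starRingEnd ℂ) (G x y - Go x y) * (G x (e c) * G (e c) y)).re|)
          ≤ κ y * (2 * (‖G x y - Go x y‖ * (‖G x (e c)‖ * ‖G (e c) y‖))) :=
            mul_le_mul_of_nonneg_left (by linarith) (hκ y hy)
        _ = _ := by ring
    have h9 := sq_le_sq' (by linarith [neg_abs_le (∑ y ∈ A₃, κ y *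
      (-(2 * ((starRingEnd ℂ) (G x y - Go x y) * (G x (e c) * G (e c) y)).re)))])
      ((le_abs_self _).trans h7)
    refine h9.trans ?_
    have h10 : (2 * ‖G x (e c)‖ * ∑ y ∈ A₃, κ y * (‖G x y - Go x y‖ * ‖G (e c) y‖)) ^ 2 =
        4 * (‖G x (e c)‖ ^ 2 * (∑ y ∈ A₃, κ y * (‖G x y - Go x y‖ * ‖G (e c) y‖)) ^ 2) := by
      ring
    rw [h10]
    exact mul_le_mul_of_nonneg_left (mul_le_mul_of_nonneg_left (hS c) (sq_nonneg _))
      (by norm_num)

end Pool.Agent.ATT.H75
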